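import Pool.Agent.N661.CA.Fin

set_option autoImplicit false

/-!
# Reversible three-state number-conserving cellular automata, von Neumann neighbourhood

We settle Q1 positively: for every dimension `d ≥ 1`, every reversible number-conserving cellular
automaton on `ℤ^d` with states `{0,1,2}` and the von Neumann neighbourhood is the identity or a
unit shift.
-/

namespace Pool.Agent.Results.MP_944d6d_mp.AllDimensions

/-- The von Neumann neighbourhood `{0, ± e_1, …, ± e_d}` of the origin of `ℤ^d`. -/
def vonNeumann (d : ℕ) : Set (Fin d → ℤ) :=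
  {u | u = 0 ∨ ∃ i : Fin d, u = Pi.single i 1 ∨ u = -Pi.single i 1}

/-- `F` is (the global map of) a cellular automaton on `ℤ^d` with state set `{0,1,2}` and the von
Neumann neighbourhood: there is a local rule `f : S^N → S` with `F(x)_v = f((x_{v+u})_{u ∈ N})`. -/
def IsCA {d : ℕ} (F : ((Fin d → ℤ) → Fin 3) → ((Fin d → ℤ) → Fin 3)) : Prop :=
  ∃ f : (vonNeumann d → Fin 3) → Fin 3, ∀ x v, F x v = f fun u => x (v + u)

/-- `F` is number-conserving: for every periodic configuration `x` (period `p i ≥ 1` along the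
coordinate direction `i`) the sums of the states of `x` and of `F x` over one period box are
equal. -/
def NumberConserving {d : ℕ} (F : ((Fin d → ℤ) → Fin 3) → ((Fin d → ℤ) → Fin 3)) : Prop :=
  ∀ p : Fin d → ℕ, (∀ i, 1 ≤ p i) → ∀ x : (Fin d → ℤ) → Fin 3,
    (∀ i v, x (v + (p i : ℤ) • Pi.single i 1) = x v) →
      ∑ v ∈ Fintype.piFinset (fun i => Finset.Ico (0 : ℤ) (p i)), (F x v : ℕ) =
        ∑ v ∈ Fintype.piFinset (fun i => Finset.Ico (0 : ℤ) (p i)), (x v : ℕ)

/-- `F` is trivial: the identity or the shift by a unit vector `± e_i`. -/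
def IsTrivial {d : ℕ} (F : ((Fin d → ℤ) → Fin 3) → ((Fin d → ℤ) → Fin 3)) : Prop :=
  (∀ x v, F x v = x v) ∨
    ∃ i : Fin d, (∀ x v, F x v = x (v + Pi.single i 1)) ∨ (∀ x v, F x v = x (v + -Pi.single i 1))

open Pool.Agent.N661.CA

theorem vz_none {d : ℕ} : vz (none : Nbr d) = 0 := by
  funext k
  rfl

theorem vz_true {d : ℕ} (i : Fin d) : vz (some (i, true)) = Pi.single i 1 := by
  funext k
  simp [vz, ep, Pi.single_apply]

theorem vz_false {d : ℕ} (i : Fin d) : vz (some (i, false)) = -Pi.single i 1 := by
  funext k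
  simp only [vz, ep, Pi.neg_apply, Pi.single_apply]
  split_ifs <;> simp

theorem exists_code {d : ℕ} (u : vonNeumann d) : ∃ w : Nbr d, vz w = u := by
  obtain ⟨u, hu⟩ := u
  rcases hu with h | ⟨i, h | h⟩
  · exact ⟨none, vz_none.trans h.symm⟩
  · exact ⟨some (i, true), (vz_true i).trans h.symm⟩
  · exact ⟨some (i, false), (vz_false i).trans h.symm⟩

theorem box_sum {d : ℕ} (h : Tor d → ℕ) :
    ∑ v ∈ Fintype.piFinset (fun _ : Fin d => Finset.Ico (0 : ℤ) ((5 : ℕ) : ℤ)),
      h (fun i => (v i : ZMod 5)) = ∑ w : Tor d, h w := by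
  refine Finset.sum_nbij' (fun v i => (v i : ZMod 5)) (fun w i => ((w i).val : ℤ)) ?_ ?_ ?_ ?_ ?_
  · intro v _
    exact Finset.mem_univ _
  · intro w _
    rw [Fintype.mem_piFinset]
    intro i
    rw [Finset.mem_Ico]
    refine ⟨by positivity, ?_⟩
    exact_mod_cast ZMod.val_lt (w i)
  · intro v hv
    funext i
    rw [Fintype.mem_piFinset] at hv
    have h1 := Finset.mem_Ico.1 (hv i)
    obtain ⟨n, hn⟩ := Int.eq_ofNat_of_zero_le h1.1
    have h2 := h1.2
    rw [hn] at h2
    have h3 : n < 5 := by exact_mod_cast h2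
    show ((((v i : ℤ) : ZMod 5).val : ℕ) : ℤ) = v i
    rw [hn, Int.cast_natCast, ZMod.val_natCast_of_lt h3]
  · intro w _
    funext i
    simp
  · intro v _
    rfl

/-- **Q1 holds**: for every `d ≥ 1`, every reversible number-conserving cellular automaton on
`ℤ^d` with state set `{0,1,2}` and the von Neumann neighbourhood is trivial. -/
theorem result :
    ∀ d : ℕ, 1 ≤ d → ∀ F : ((Fin d → ℤ) → Fin 3) → ((Fin d → ℤ) → Fin 3),
      IsCA F → Function.Bijective F → NumberConserving F → IsTrivial F := by
  intro d _ F hCA hbij hNC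
  obtain ⟨f, hf⟩ := hCA
  choose code hcode using @exists_code d
  let g : (Nbr d → Fin 3) → Fin 3 := fun q => f fun u => q (code u)
  have hg : ∀ x v, F x v = g fun w => x (v + vz w) := by
    intro x v
    rw [hf]
    show f _ = f fun u => x (v + vz (code u))
    congr 1
    funext u
    rw [hcode]
  have hglob : F = glob g := by
    funext x v
    exact hg x v
  have hTN : TN g := by
    intro z
    have h := hNC (fun _ => 5) (fun _ => by norm_num) (fun v => z fun i => (v i : ZMod 5)) ?_
    · have h1 : ∀ v : Fin d → ℤ, (F (fun v => z fun i => (v i : ZMod 5)) v : ℕ) =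
          (fun w : Tor d => (g (Ng w z) : ℕ)) (fun i => (v i : ZMod 5)) := by
        intro v
        rw [hg]
        have e : (fun w : Nbr d => z fun i => ((v + vz w) i : ZMod 5)) =
            Ng (fun i => (v i : ZMod 5)) z := by
          funext w
          show z _ = z _
          congr 1
          funext i
          show (((v + vz w) i : ℤ) : ZMod 5) = ((v i : ℤ) : ZMod 5) + vt w i
          rw [Pi.add_apply, Int.cast_add]
          rfl
        show (g (fun w => z fun i => ((v + vz w) i : ZMod 5)) : ℕ) =
          (g (Ng (fun i => (v i : ZMod 5)) z) : ℕ)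
        rw [e]
      simp only [h1] at h
      rw [box_sum (fun w : Tor d => (g (Ng w z) : ℕ)), box_sum (fun w : Tor d => (z w : ℕ))] at h
      exact h
    · intro i v
      show z _ = z _
      congr 1
      funext k
      have h5 : ((5 : ℕ) : ZMod 5) = 0 := rfl
      simp only [Pi.add_apply, Pi.smul_apply, smul_eq_mul, Int.cast_add, Int.cast_mul,
        Int.cast_natCast, h5, zero_mul, add_zero]
  obtain ⟨t, ht⟩ := rule_trivial hTN (hglob ▸ hbij.1)
  have hF : ∀ x v, F x v = x (v + vz t) := by
    intro x v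
    rw [hg]
    exact ht fun w => x (v + vz w)
  rcases t with _ | ⟨i, s⟩
  · left
    intro x v
    rw [hF, vz_none, add_zero]
  · right
    refine ⟨i, ?_⟩
    cases s
    · right
      intro x v
      rw [hF, vz_false]
    · left
      intro x v
      rw [hF, vz_true]

end Pool.Agent.Results.MP_944d6d_mp.AllDimensions
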