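import Pool.Agent.N661.CA.OneD2

set_option autoImplicit false

namespace Pool.Agent.N661.CA

/-- index set of the von Neumann neighbourhood -/
abbrev Nbr (d : ℕ) : Type := Option (Fin d × Bool)

/-- coordinates of the neighbours, integers -/
def ep {d : ℕ} : Nbr d → Fin d → ℤ
  | none, _ => 0
  | some (i, true), k => if k = i then 1 else 0
  | some (i, false), k => if k = i then -1 else 0

/-- the opposite neighbour -/
def neg {d : ℕ} : Nbr d → Nbr d
  | none => none
  | some (i, s) => some (i, !s)

variable {d : ℕ}

@[simp] theorem neg_neg' (u : Nbr d) : neg (neg u) = u := by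
  rcases u with _ | ⟨i, s⟩ <;> simp [neg]

theorem neg_inj {u w : Nbr d} (h : neg u = neg w) : u = w := by
  have := congrArg neg h
  simpa using this

theorem ep_neg (u : Nbr d) (k : Fin d) : ep (neg u) k = - ep u k := by
  rcases u with _ | ⟨i, s⟩
  · simp [neg, ep]
  · cases s <;> simp only [neg, ep, Bool.not_true, Bool.not_false] <;> split_ifs <;> simp

theorem ep_range (u : Nbr d) (k : Fin d) : -1 ≤ ep u k ∧ ep u k ≤ 1 := by
  rcases u with _ | ⟨i, s⟩
  · simp [ep]
  · cases s <;> simp only [ep] <;> split_ifs <;> simp

theorem ep_some (i : Fin d) (s : Bool) : ep (some (i, s)) i = if s then 1 else -1 := by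
  cases s <;> simp [ep]

theorem ep_some_ne (i k : Fin d) (s : Bool) (h : k ≠ i) : ep (some (i, s)) k = 0 := by
  cases s <;> simp [ep, h]

/-- a neighbour with a nonzero coordinate is determined by it -/
theorem eq_of_ep {u : Nbr d} {k : Fin d} {s : Bool} (h : ep u k = ep (some (k, s)) k) :
    u = some (k, s) := by
  rw [ep_some] at h
  rcases u with _ | ⟨i, t⟩
  · cases s <;> simp [ep] at h
  · by_cases hk : k = i
    · subst hk
      rw [ep_some] at h
      cases s <;> cases t <;> simp_all
    · rw [ep_some_ne i k t hk] at h
      cases s <;> simp at h

theorem eq_none_of_ep {u : Nbr d} (h : ∀ k, ep u k = 0) : u = none := by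
  rcases u with _ | ⟨i, t⟩
  · rfl
  · have := h i
    rw [ep_some] at this
    cases t <;> simp at this

theorem diff_lemma {a b c e : Nbr d} (h : ∀ k, ep a k - ep b k = ep c k - ep e k) (hab : a ≠ b) :
    (a = c ∧ b = e) ∨ (a = neg e ∧ b = neg c) := by
  rcases a with _ | ⟨i, s⟩
  · rcases b with _ | ⟨j, t⟩
    · exact absurd rfl hab
    · have hj := h j
      have hc := ep_range c j
      have he := ep_range e j
      rw [ep_some] at hj
      have h0 : ep (none : Nbr d) j = 0 := rfl
      rw [h0] at hj
      by_cases hce : ep c j = 0
      · -- e = b
        left
        have h1 : e = some (j, t) := by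
          apply eq_of_ep
          rw [ep_some]
          cases t <;> simp_all
        subst h1
        refine ⟨(eq_none_of_ep fun k => ?_).symm, rfl⟩
        have := h k
        have h00 : ep (none : Nbr d) k = 0 := rfl
        rw [h00] at this
        omega
      · right
        have h1 : c = some (j, !t) := by
          apply eq_of_ep
          rw [ep_some]
          cases t <;> simp_all <;> omega
        subst h1
        refine ⟨?_, by simp [neg]⟩
        have h2 : e = none := eq_none_of_ep fun k => by
          have h3 := h k
          have h4 := ep_neg (some (j, t)) k
          have h5 : neg (some (j, t)) = some (j, !t) := rfl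
          rw [h5] at h4
          have h00 : ep (none : Nbr d) k = 0 := rfl
          rw [h00] at h3
          omega
        rw [h2]; rfl
  · rcases b with _ | ⟨j, t⟩
    · have hj := h i
      have hc := ep_range c i
      have he := ep_range e i
      rw [ep_some] at hj
      have h0 : ep (none : Nbr d) i = 0 := rfl
      rw [h0] at hj
      by_cases hce : ep e i = 0
      · left
        have h1 : c = some (i, s) := by
          apply eq_of_ep
          rw [ep_some]
          cases s <;> simp_all
        subst h1
        refine ⟨rfl, (eq_none_of_ep fun k => ?_).symm⟩
        have := h k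
        have h00 : ep (none : Nbr d) k = 0 := rfl
        rw [h00] at this
        omega
      · right
        have h1 : e = some (i, !s) := by
          apply eq_of_ep
          rw [ep_some]
          cases s <;> simp_all <;> omega
        subst h1
        refine ⟨by simp [neg], ?_⟩
        have h2 : c = none := eq_none_of_ep fun k => by
          have h3 := h k
          have h4 := ep_neg (some (i, s)) k
          have h5 : neg (some (i, s)) = some (i, !s) := rfl
          rw [h5] at h4
          have h00 : ep (none : Nbr d) k = 0 := rfl
          rw [h00] at h3
          omega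
        rw [h2]; rfl
    · by_cases hij : i = j
      · subst hij
        left
        have ht : t = !s := by
          cases s <;> cases t <;> simp_all
        subst ht
        have hi := h i
        have hc := ep_range c i
        have he := ep_range e i
        rw [ep_some, ep_some] at hi
        have h1 : c = some (i, s) := by
          apply eq_of_ep
          rw [ep_some]
          cases s <;> simp_all <;> omega
        have h2 : e = some (i, !s) := by
          apply eq_of_ep
          rw [ep_some]
          cases s <;> simp_all <;> omega
        exact ⟨h1.symm, h2.symm⟩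
      · have hi := h i
        have hj := h j
        have hc := ep_range c i
        have he := ep_range e i
        have hc' := ep_range c j
        have he' := ep_range e j
        rw [ep_some, ep_some_ne j i t hij] at hi
        rw [ep_some, ep_some_ne i j s (Ne.symm hij)] at hj
        by_cases hce : ep e i = 0
        · left
          have h1 : c = some (i, s) := by
            apply eq_of_ep
            rw [ep_some]
            cases s <;> simp_all
          have h2 : e = some (j, t) := by
            apply eq_of_ep
            rw [ep_some]
            rw [h1, ep_some_ne i j s (Ne.symm hij)] at hj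
            cases t <;> simp_all
          exact ⟨h1.symm, h2.symm⟩
        · right
          have h1 : e = some (i, !s) := by
            apply eq_of_ep
            rw [ep_some]
            cases s <;> simp_all <;> omega
          have h2 : c = some (j, !t) := by
            apply eq_of_ep
            rw [ep_some]
            rw [h1, ep_some_ne i j (!s) (Ne.symm hij)] at hj
            cases t <;> simp_all
          rw [h1, h2]
          simp [neg]

/-- the torus -/
abbrev Tor (d : ℕ) : Type := Fin d → ZMod 5

/-- the neighbours of the origin in the torus -/
def vt (u : Nbr d) : Tor d := fun k => (ep u k : ZMod 5)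

theorem vt_neg (u : Nbr d) : vt (neg u) = - vt u := by
  funext k
  simp [vt, ep_neg]

theorem vt_none : vt (none : Nbr d) = 0 := by
  funext k
  simp [vt, ep]

theorem int_of_zmod {x y : ℤ} (h : (x : ZMod 5) = (y : ZMod 5)) (h1 : -5 < x - y) (h2 : x - y < 5) :
    x = y := by
  rw [ZMod.intCast_eq_intCast_iff_dvd_sub] at h
  obtain ⟨m, hm⟩ := h
  push_cast at hm
  omega

theorem vt_inj {u w : Nbr d} (h : vt u = vt w) : u = w := by
  by_contra hne
  have h1 : ∀ k, ep u k - ep w k = ep (none : Nbr d) k - ep (none : Nbr d) k := by
    intro k
    have := congrFun h k
    unfold vt at this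
    have h2 := ep_range u k
    have h3 := ep_range w k
    have := int_of_zmod this (by omega) (by omega)
    omega
  rcases diff_lemma h1 hne with ⟨h2, h3⟩ | ⟨h2, h3⟩
  · exact hne (h2.trans h3.symm)
  · exact hne (h2.trans h3.symm)

/-- at a site `v ≠ 0` at most two sites of the neighbourhood of the origin are seen -/
theorem two_lemma {v : Tor d} (hv : v ≠ 0) {a b c e : Nbr d} (hab : a ≠ b)
    (h1 : v + vt a = vt c) (h2 : v + vt b = vt e) : c = neg b ∧ e = neg a := by
  have h : ∀ k, ep a k - ep b k = ep c k - ep e k := by
    intro k
    have h3 := congrFun h1 k
    have h4 := congrFun h2 k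
    simp only [Pi.add_apply] at h3 h4
    unfold vt at h3 h4
    have h5 : ((ep a k - ep b k : ℤ) : ZMod 5) = ((ep c k - ep e k : ℤ) : ZMod 5) := by
      push_cast
      rw [← h3, ← h4]
      ring
    have r1 := ep_range a k
    have r2 := ep_range b k
    have r3 := ep_range c k
    have r4 := ep_range e k
    exact int_of_zmod h5 (by omega) (by omega)
  rcases diff_lemma h hab with ⟨h3, h4⟩ | ⟨h3, h4⟩
  · exfalso
    apply hv
    rw [← h3] at h1
    have : v + vt a = 0 + vt a := by rw [h1, zero_add]
    exact add_right_cancel this
  · constructor
    · rw [h4, neg_neg']
    · rw [h3, neg_neg']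

end Pool.Agent.N661.CA
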