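import Pool.Agent.N661.CA.Main

set_option autoImplicit false

namespace Pool.Agent.N661.CA

variable {d : ℕ}

/-- the neighbours of the origin of `ℤ^d` -/
def vz (u : Nbr d) : Fin d → ℤ := fun k => ep u k

/-- sum over the torus of a function of one coordinate -/
theorem sum_coord (i : Fin d) (h : ZMod 5 → ℕ) :
    ∑ v : Tor d, h (v i) = Fintype.card ({j // j ≠ i} → ZMod 5) * ∑ k, h k := by
  rw [Fintype.sum_equiv (Equiv.funSplitAt i (ZMod 5)) (fun v : Tor d => h (v i))
    (fun p => h p.1) (fun v => rfl), Fintype.sum_prod_type]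
  simp [Finset.mul_sum]

def sgn (s : Bool) : ℤ := if s then 1 else -1

theorem sgn_sq (s : Bool) : sgn s * sgn s = 1 := by cases s <;> simp [sgn]

/-- what is seen in a configuration which depends on one coordinate -/
theorem see {m : ℕ} (i : Fin d) (s : Bool) (y : ZMod m → Fin 3) (k : ZMod m) :
    (fun u : Nbr d => y (k + (sgn s : ZMod m) * (ep u i : ZMod m))) =
      ext i s (y (k - 1)) (y k) (y (k + 1)) := by
  funext u
  rcases u with _ | ⟨j, b⟩
  · simp [ep, ext]
  · by_cases hj : j = i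
    · subst hj
      simp only [ext, if_true]
      rw [ep_some]
      cases b <;> cases s <;> simp [sgn, sub_eq_add_neg]
    · have h1 : ep (some (j, b)) i = 0 := ep_some_ne j i b (Ne.symm hj)
      simp only [ext]
      rw [if_neg hj, h1]
      simp

theorem oneNC {f : (Nbr d → Fin 3) → Fin 3} (hf : TN f) (i : Fin d) (s : Bool)
    (y : ZMod 5 → Fin 3) :
    ∑ k, (f (ext i s (y (k - 1)) (y k) (y (k + 1))) : ℕ) = ∑ k, (y k : ℕ) := by
  have h := hf fun v => y ((sgn s : ZMod 5) * v i)
  have h1 : ∀ v : Tor d, Ng v (fun v => y ((sgn s : ZMod 5) * v i)) =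
      ext i s (y ((sgn s : ZMod 5) * v i - 1)) (y ((sgn s : ZMod 5) * v i))
        (y ((sgn s : ZMod 5) * v i + 1)) := by
    intro v
    rw [← see i s y ((sgn s : ZMod 5) * v i)]
    funext u
    unfold Ng vt
    simp only [Pi.add_apply, mul_add]
  simp only [h1] at h
  have e1 := sum_coord i (fun k => (f (ext i s (y ((sgn s : ZMod 5) * k - 1))
    (y ((sgn s : ZMod 5) * k)) (y ((sgn s : ZMod 5) * k + 1))) : ℕ))
  have e2 := sum_coord i (fun k => (y ((sgn s : ZMod 5) * k) : ℕ))
  rw [e1, e2] at h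
  have hpos : 0 < Fintype.card ({j // j ≠ i} → ZMod 5) := Fintype.card_pos
  have h2 := Nat.eq_of_mul_eq_mul_left hpos h
  have hinv : Function.Involutive fun k : ZMod 5 => (sgn s : ZMod 5) * k := by
    intro k
    show (sgn s : ZMod 5) * ((sgn s : ZMod 5) * k) = k
    rw [← mul_assoc, ← Int.cast_mul, sgn_sq, Int.cast_one, one_mul]
  have e3 := Fintype.sum_equiv hinv.toPerm
    (fun k => (f (ext i s (y ((sgn s : ZMod 5) * k - 1)) (y ((sgn s : ZMod 5) * k))
      (y ((sgn s : ZMod 5) * k + 1))) : ℕ))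
    (fun k => (f (ext i s (y (k - 1)) (y k) (y (k + 1))) : ℕ)) (fun k => rfl)
  have e4 := Fintype.sum_equiv hinv.toPerm (fun k => (y ((sgn s : ZMod 5) * k) : ℕ))
    (fun k => (y k : ℕ)) (fun k => rfl)
  rw [e3, e4] at h2
  exact h2

theorem formula {f : (Nbr d → Fin 3) → Fin 3} (hf : TN f) (i : Fin d) (s : Bool)
    (l c r : Fin 3) :
    (f (ext i s l c r) : ℕ) + (f (ext i s 0 0 l) : ℕ) + (f (ext i s 0 l c) : ℕ) =
      (l : ℕ) + (f (ext i s 0 0 c) : ℕ) + (f (ext i s 0 c r) : ℕ) := by
  have h0 := oneNC hf i s (fun _ => 0)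
  have h1 := oneNC hf i s (![l, c, r, 0, 0] : Fin 5 → Fin 3)
  have h2 := oneNC hf i s (![c, r, 0, 0, 0] : Fin 5 → Fin 3)
  have h0' : (f (ext i s 0 0 0) : ℕ) = 0 := by
    simpa using h0
  have h1' : (f (ext i s 0 l c) : ℕ) + (f (ext i s l c r) : ℕ) + (f (ext i s c r 0) : ℕ) +
      (f (ext i s r 0 0) : ℕ) + (f (ext i s 0 0 l) : ℕ) = l + c + r + 0 + 0 := by
    have e1 := Fin.sum_univ_five (fun k : Fin 5 =>
      (f (ext i s ((![l, c, r, 0, 0] : Fin 5 → Fin 3) (k - 1)) ((![l, c, r, 0, 0] : Fin 5 → Fin 3) k)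
        ((![l, c, r, 0, 0] : Fin 5 → Fin 3) (k + 1))) : ℕ))
    have e2 := Fin.sum_univ_five (fun k : Fin 5 => ((![l, c, r, 0, 0] : Fin 5 → Fin 3) k : ℕ))
    exact e1.symm.trans (h1.trans e2)
  have h2' : (f (ext i s 0 c r) : ℕ) + (f (ext i s c r 0) : ℕ) + (f (ext i s r 0 0) : ℕ) +
      (f (ext i s 0 0 0) : ℕ) + (f (ext i s 0 0 c) : ℕ) = c + r + 0 + 0 + 0 := by
    have e1 := Fin.sum_univ_five (fun k : Fin 5 =>
      (f (ext i s ((![c, r, 0, 0, 0] : Fin 5 → Fin 3) (k - 1)) ((![c, r, 0, 0, 0] : Fin 5 → Fin 3) k)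
        ((![c, r, 0, 0, 0] : Fin 5 → Fin 3) (k + 1))) : ℕ))
    have e2 := Fin.sum_univ_five (fun k : Fin 5 => ((![c, r, 0, 0, 0] : Fin 5 → Fin 3) k : ℕ))
    exact e1.symm.trans (h2.trans e2)
  omega

/-- the global map of a local rule -/
def glob (f : (Nbr d → Fin 3) → Fin 3) (x : (Fin d → ℤ) → Fin 3) : (Fin d → ℤ) → Fin 3 :=
  fun v => f fun u => x (v + vz u)

theorem one_inj {f : (Nbr d → Fin 3) → Fin 3} (hi : Function.Injective (glob f)) (i : Fin d)
    (s : Bool) (y y' : ZMod 4 → Fin 3)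
    (h : ∀ k, f (ext i s (y (k - 1)) (y k) (y (k + 1))) =
      f (ext i s (y' (k - 1)) (y' k) (y' (k + 1)))) : y = y' := by
  have h1 : ∀ y : ZMod 4 → Fin 3, glob f (fun v => y ((sgn s : ZMod 4) * (v i : ZMod 4))) =
      fun v => f (ext i s (y ((sgn s : ZMod 4) * (v i : ZMod 4) - 1))
        (y ((sgn s : ZMod 4) * (v i : ZMod 4))) (y ((sgn s : ZMod 4) * (v i : ZMod 4) + 1))) := by
    intro y
    funext v
    rw [← see i s y ((sgn s : ZMod 4) * (v i : ZMod 4))]
    unfold glob
    congr 1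
    funext u
    unfold vz
    simp only [Pi.add_apply, Int.cast_add, mul_add]
  have h2 : glob f (fun v => y ((sgn s : ZMod 4) * (v i : ZMod 4))) =
      glob f (fun v => y' ((sgn s : ZMod 4) * (v i : ZMod 4))) := by
    rw [h1, h1]
    funext v
    exact h _
  have h3 := hi h2
  funext k
  obtain ⟨n, hn⟩ := ZMod.intCast_surjective ((sgn s : ZMod 4) * k)
  have h4 := congrFun h3 (fun _ => n)
  simp only at h4
  rw [hn, ← mul_assoc, ← Int.cast_mul, sgn_sq, Int.cast_one, one_mul] at h4
  exact h4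

theorem one_triv {f : (Nbr d → Fin 3) → Fin 3} (hf : TN f) (hi : Function.Injective (glob f))
    (i : Fin d) (s : Bool) :
    (∀ l c r, f (ext i s l c r) = l) ∨ (∀ l c r, f (ext i s l c r) = c) ∨
      (∀ l c r, f (ext i s l c r) = r) := by
  refine oneD (fun l c r => f (ext i s l c r)) (fun l c r => formula hf i s l c r) ?_
  rintro ⟨a, b, c, e⟩ ⟨a', b', c', e'⟩ h1 h2 h3 h4
  simp only at h1 h2 h3 h4
  have h := one_inj hi i s (![a, b, c, e] : Fin 4 → Fin 3) (![a', b', c', e'] : Fin 4 → Fin 3) (by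
    intro k
    have : ∀ k : Fin 4, f (ext i s ((![a, b, c, e] : Fin 4 → Fin 3) (k - 1))
        ((![a, b, c, e] : Fin 4 → Fin 3) k) ((![a, b, c, e] : Fin 4 → Fin 3) (k + 1))) =
        f (ext i s ((![a', b', c', e'] : Fin 4 → Fin 3) (k - 1))
        ((![a', b', c', e'] : Fin 4 → Fin 3) k) ((![a', b', c', e'] : Fin 4 → Fin 3) (k + 1))) := by
      intro k
      fin_cases k
      · exact h1
      · exact h2
      · exact h3
      · exact h4
    exact this k)
  have g0 := congrFun h (0 : Fin 4)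
  have g1 := congrFun h (1 : Fin 4)
  have g2 := congrFun h (2 : Fin 4)
  have g3 := congrFun h (3 : Fin 4)
  simp at g0 g1 g2 g3
  rw [g0, g1, g2, g3]

theorem f_zero {f : (Nbr d → Fin 3) → Fin 3} (hf : TN f) : f (fun _ => 0) = 0 := by
  have h := hf fun _ => 0
  have h1 : ∀ v : Tor d, Ng v (fun _ : Tor d => (0 : Fin 3)) = fun _ => 0 := fun v => rfl
  simp only [h1] at h
  have h2 : (f (fun _ => 0) : ℕ) = 0 := by simpa using h
  exact Fin.ext h2

/-- the images of one cell -/
theorem sum_sg {f : (Nbr d → Fin 3) → Fin 3} (hf : TN f) (a : Fin 3) :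
    ∑ u, (f (sg u a) : ℕ) = a := by
  have h := hf fun v => if v = 0 then a else 0
  have e : Function.Injective fun u : Nbr d => - vt u := fun u w h => vt_inj (neg_injective h)
  rw [← Fintype.sum_of_injective _ e (fun u => (f (sg u a) : ℕ))] at h
  · rw [h, Fintype.sum_eq_single (0 : Tor d)]
    · simp
    · intro v hv
      simp [hv]
  · intro v hv
    have : Ng v (fun v : Tor d => if v = 0 then a else 0) = fun _ => 0 := by
      funext u
      show (if v + vt u = 0 then a else 0) = 0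
      rw [if_neg]
      intro h0
      apply hv
      exact ⟨u, (eq_neg_of_add_eq_zero_left h0).symm⟩
    rw [this, f_zero hf]
    rfl
  · intro u
    congr 2
    funext x
    show (if x = u then a else 0) = (if -vt u + vt x = 0 then a else 0)
    by_cases hx : x = u
    · subst hx
      rw [if_pos rfl, if_pos (neg_add_cancel _)]
    · rw [if_neg hx, if_neg]
      intro h0
      apply hx
      apply vt_inj
      have := eq_neg_of_add_eq_zero_right h0
      rw [this, neg_neg]

theorem exists_t {f : (Nbr d → Fin 3) → Fin 3} (hf : TN f) :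
    ∃ t, f (sg t 1) = 1 ∧ ∀ u, u ≠ t → f (sg u 1) = 0 := by
  have h := sum_sg hf 1
  have h1 : ∃ t, f (sg t 1) ≠ 0 := by
    by_contra hh
    push Not at hh
    simp [hh] at h
  obtain ⟨t, ht⟩ := h1
  have h2 := Finset.add_sum_erase Finset.univ (fun u => (f (sg u 1) : ℕ)) (Finset.mem_univ t)
  rw [h] at h2
  have h3 : 1 ≤ (f (sg t 1) : ℕ) := by
    rw [Nat.one_le_iff_ne_zero]
    intro h0
    exact ht (Fin.ext h0)
  have h4 : ((1 : Fin 3) : ℕ) = 1 := rfl
  rw [h4] at h2
  refine ⟨t, Fin.ext (by rw [h4]; omega), fun u hu => ?_⟩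
  have h5 : ∑ x ∈ Finset.univ.erase t, (f (sg x 1) : ℕ) = 0 := by omega
  rw [Finset.sum_eq_zero_iff] at h5
  exact Fin.ext (h5 u (Finset.mem_erase.2 ⟨hu, Finset.mem_univ _⟩))

theorem ext_right (i : Fin d) (s : Bool) (a : Fin 3) : ext i s 0 0 a = sg (some (i, s)) a := by
  funext u
  rcases u with _ | ⟨j, b⟩
  · simp [ext, sg]
  · by_cases hj : j = i
    · subst hj
      by_cases hb : b = s
      · subst hb; simp [ext, sg]
      · simp [ext, sg, hb]
    · simp [ext, sg, hj]

theorem ext_left (i : Fin d) (s : Bool) (a : Fin 3) : ext i s a 0 0 = sg (some (i, !s)) a := by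
  funext u
  rcases u with _ | ⟨j, b⟩
  · simp [ext, sg]
  · by_cases hj : j = i
    · subst hj
      cases b <;> cases s <;> simp [ext, sg]
    · simp [ext, sg, hj]

/-- if all weight is at `t`, the other cells give nothing -/
theorem ex_sg {f : (Nbr d → Fin 3) → Fin 3} (hf : TN f) (t : Nbr d)
    (ht : ∀ a, f (sg t a) = a) (u : Nbr d) (a : Fin 3) : ex f t (sg u a) = 0 := by
  unfold ex
  by_cases hu : u = t
  · subst hu
    rw [ht]
    simp [sg]
  · have h1 : sg u a t = 0 := by unfold sg; rw [if_neg (Ne.symm hu)]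
    have h := sum_sg hf a
    have h2 := Finset.add_sum_erase Finset.univ (fun u => (f (sg u a) : ℕ)) (Finset.mem_univ t)
    rw [h, ht] at h2
    have h5 : ∑ x ∈ Finset.univ.erase t, (f (sg x a) : ℕ) = 0 := by omega
    rw [Finset.sum_eq_zero_iff] at h5
    have h6 := h5 u (Finset.mem_erase.2 ⟨hu, Finset.mem_univ _⟩)
    rw [h1]
    rw [h6]
    simp

/-- **Main theorem for local rules.** -/
theorem rule_trivial {f : (Nbr d → Fin 3) → Fin 3} (hf : TN f)
    (hi : Function.Injective (glob f)) : ∃ t, ∀ q, f q = q t := by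
  obtain ⟨t, ht1, htu⟩ := exists_t hf
  rcases t with _ | ⟨i, s⟩
  · -- the cell stays
    have hB : ∀ i s l c r, f (ext i s l c r) = c := by
      intro i s
      rcases one_triv hf hi i s with h | h | h
      · exfalso
        have h1 := h 1 0 0
        rw [ext_left, htu _ (by simp)] at h1
        exact absurd h1 (by decide)
      · exact h
      · exfalso
        have h1 := h 0 0 1
        rw [ext_right, htu _ (by simp)] at h1
        exact absurd h1 (by decide)
    have hz : ∀ u, u ≠ none → ∀ a, f (sg u a) = 0 := by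
      intro u hu a
      rcases u with _ | ⟨j, b⟩
      · exact absurd rfl hu
      · rw [← ext_right, hB]
    have ht : ∀ a, f (sg none a) = a := by
      intro a
      have h := sum_sg hf a
      rw [Fintype.sum_eq_single (none : Nbr d)] at h
      · exact Fin.ext h
      · intro u hu
        rw [hz u hu]
        rfl
    exact ⟨none, caseB hf (ex_sg hf none ht) hB⟩
  · have hA : ∀ l c r, f (ext i s l c r) = r := by
      have h2 : f (ext i s 0 0 1) = 1 := by rw [ext_right]; exact ht1
      rcases one_triv hf hi i s with h | h | h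
      · exfalso
        rw [h] at h2
        exact absurd h2 (by decide)
      · exfalso
        rw [h] at h2
        exact absurd h2 (by decide)
      · exact h
    have ht : ∀ a, f (sg (some (i, s)) a) = a := by
      intro a
      rw [← ext_right, hA]
    exact ⟨some (i, s), caseA hf (ex_sg hf _ ht) hA⟩

end Pool.Agent.N661.CA
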