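import Pool.Agent.N661.CA.Comb

set_option autoImplicit false

namespace Pool.Agent.N661.CA

variable {d : ℕ}

/-- what the site `v` sees -/
def Ng (v : Tor d) (z : Tor d → Fin 3) : Nbr d → Fin 3 := fun u => z (v + vt u)

/-- number conservation on the torus -/
def TN (f : (Nbr d → Fin 3) → Fin 3) : Prop :=
  ∀ z : Tor d → Fin 3, ∑ v, (f (Ng v z) : ℕ) = ∑ v, (z v : ℕ)

/-- one nonzero cell -/
def sg (u : Nbr d) (a : Fin 3) : Nbr d → Fin 3 := fun x => if x = u then a else 0

/-- two nonzero cells -/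
def dbl (u : Nbr d) (a : Fin 3) (w : Nbr d) (b : Fin 3) : Nbr d → Fin 3 :=
  fun x => if x = u then a else if x = w then b else 0

theorem dbl_comm {u w : Nbr d} (h : u ≠ w) (a b : Fin 3) : dbl u a w b = dbl w b u a := by
  funext x
  unfold dbl
  by_cases h1 : x = u
  · subst h1
    rw [if_pos rfl, if_neg h, if_pos rfl]
  · by_cases h2 : x = w
    · subst h2
      rw [if_neg h1, if_pos rfl, if_pos rfl]
    · rw [if_neg h1, if_neg h2, if_neg h2, if_neg h1]

theorem dbl_zero_right (u w : Nbr d) (a : Fin 3) : dbl u a w 0 = sg u a := by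
  funext x
  unfold dbl sg
  split_ifs <;> rfl

theorem dbl_zero_left {u w : Nbr d} (h : u ≠ w) (b : Fin 3) : dbl u 0 w b = sg w b := by
  rw [dbl_comm h, dbl_zero_right]

open Classical in
/-- the configuration of the torus which is `q` on the neighbourhood of the origin -/
noncomputable def zq (q : Nbr d → Fin 3) : Tor d → Fin 3 := fun v =>
  if h : ∃ u, vt u = v then q h.choose else 0

theorem zq_vt (q : Nbr d → Fin 3) (u : Nbr d) : zq q (vt u) = q u := by
  have h : ∃ u', vt u' = (vt u : Tor d) := ⟨u, rfl⟩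
  unfold zq
  rw [dif_pos h]
  exact congrArg q (vt_inj h.choose_spec)

theorem zq_ne {q : Nbr d → Fin 3} {v : Tor d} (h : zq q v ≠ 0) : ∃ u, v = vt u ∧ q u ≠ 0 := by
  by_cases h1 : ∃ u, vt u = v
  · obtain ⟨u, hu⟩ := h1
    refine ⟨u, hu.symm, ?_⟩
    rw [← hu, zq_vt] at h
    exact h
  · exact absurd (by unfold zq; rw [dif_neg h1]) h

theorem Ng_zero (q : Nbr d → Fin 3) : Ng 0 (zq q) = q := by
  funext u
  unfold Ng
  rw [zero_add, zq_vt]

theorem key {q : Nbr d → Fin 3} {v : Tor d} (hv : v ≠ 0) :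
    (∃ w a, Ng v (zq q) = sg w a) ∨
    ∃ w1 w2, w1 ≠ w2 ∧ Ng v (zq q) = dbl w1 (q (neg w2)) w2 (q (neg w1)) ∧
      q (neg w2) ≠ 0 ∧ q (neg w1) ≠ 0 ∧ v = -(vt w1 + vt w2) := by
  by_cases h : ∃ w1 w2, w1 ≠ w2 ∧ Ng v (zq q) w1 ≠ 0 ∧ Ng v (zq q) w2 ≠ 0
  · right
    obtain ⟨w1, w2, hne, h1, h2⟩ := h
    obtain ⟨u1, hu1, hq1⟩ := zq_ne h1
    obtain ⟨u2, hu2, hq2⟩ := zq_ne h2
    obtain ⟨e1, e2⟩ := two_lemma hv hne hu1 hu2
    subst e1 e2
    refine ⟨w1, w2, hne, ?_, hq1, hq2, ?_⟩
    · funext x
      unfold dbl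
      by_cases hx1 : x = w1
      · subst hx1
        rw [if_pos rfl]
        show zq q (v + vt x) = _
        rw [hu1, zq_vt]
      · by_cases hx2 : x = w2
        · subst hx2
          rw [if_neg hx1, if_pos rfl]
          show zq q (v + vt x) = _
          rw [hu2, zq_vt]
        · rw [if_neg hx1, if_neg hx2]
          by_contra h3
          obtain ⟨u3, hu3, -⟩ := zq_ne h3
          have := (two_lemma hv (Ne.symm hx1) hu1 hu3).1
          exact hx2 (neg_inj this).symm
    · rw [vt_neg] at hu1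
      rw [← sub_eq_zero]
      have : v - -(vt w1 + vt w2) = (v + vt w1) + vt w2 := by abel
      rw [this, hu1]
      abel
  · left
    push Not at h
    by_cases h1 : ∃ w, Ng v (zq q) w ≠ 0
    · obtain ⟨w, hw⟩ := h1
      refine ⟨w, Ng v (zq q) w, ?_⟩
      funext x
      unfold sg
      by_cases hx : x = w
      · subst hx
        rw [if_pos rfl]
      · rw [if_neg hx]
        exact h w x (Ne.symm hx) hw
    · push Not at h1
      refine ⟨none, 0, ?_⟩
      funext x
      unfold sg
      rw [h1 x]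
      split_ifs <;> rfl

/-- the excess -/
def ex (f : (Nbr d → Fin 3) → Fin 3) (t : Nbr d) (q : Nbr d → Fin 3) : ℤ :=
  (f q : ℤ) - (q t : ℤ)

theorem sum_ex {f : (Nbr d → Fin 3) → Fin 3} (hf : TN f) (t : Nbr d) (z : Tor d → Fin 3) :
    ∑ v, ex f t (Ng v z) = 0 := by
  unfold ex
  rw [Finset.sum_sub_distrib, sub_eq_zero]
  have h1 := hf z
  have h2 : ∑ v : Tor d, ((Ng v z t : Fin 3) : ℕ) = ∑ v, (z v : ℕ) :=
    Fintype.sum_equiv (Equiv.addRight (vt t)) _ _ fun v => rfl
  have h3 := h1.trans h2.symm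
  exact_mod_cast h3

theorem ex_nonneg {f : (Nbr d → Fin 3) → Fin 3} {t : Nbr d} {q : Nbr d → Fin 3} (h : q t = 0) :
    0 ≤ ex f t q := by
  unfold ex
  rw [h]
  simp

section

variable {f : (Nbr d → Fin 3) → Fin 3} {t : Nbr d}

theorem Ng_dbl {w1 w2 : Nbr d} (hne : w1 ≠ w2) (h : w2 ≠ neg w1) (q : Nbr d → Fin 3)
    (hv : vt w1 + vt w2 ≠ 0) :
    Ng (vt w1 + vt w2) (zq q) = dbl (neg w2) (q w1) (neg w1) (q w2) := by
  have h1 : vt w1 + vt w2 + vt (neg w2) = vt w1 := by rw [vt_neg]; abel
  have h2 : vt w1 + vt w2 + vt (neg w1) = vt w2 := by rw [vt_neg]; abel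
  have hne' : neg w2 ≠ neg w1 := fun h => hne (neg_inj h).symm
  funext x
  unfold dbl
  by_cases hx1 : x = neg w2
  · subst hx1
    rw [if_pos rfl]
    show zq q (_ + vt (neg w2)) = _
    rw [h1, zq_vt]
  · by_cases hx2 : x = neg w1
    · subst hx2
      rw [if_neg hx1, if_pos rfl]
      show zq q (_ + vt (neg w1)) = _
      rw [h2, zq_vt]
    · rw [if_neg hx1, if_neg hx2]
      by_contra h3
      obtain ⟨u3, hu3, -⟩ := zq_ne h3
      have := (two_lemma hv (Ne.symm hx1) h1 hu3).1
      apply hx2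
      rw [this, neg_neg']

theorem sum_ne_zero {w1 w2 : Nbr d} (h : w2 ≠ neg w1) : (vt w1 + vt w2 : Tor d) ≠ 0 := by
  intro h0
  apply h
  apply vt_inj
  rw [vt_neg]
  exact eq_neg_of_add_eq_zero_right h0

/-- antisymmetry of the excess of two cells -/
theorem anti (hf : TN f) (h1 : ∀ u a, ex f t (sg u a) = 0) {w1 w2 : Nbr d} (hne : w1 ≠ w2)
    (a b : Fin 3) (h : w2 ≠ neg w1) :
    ex f t (dbl w1 a w2 b) + ex f t (dbl (neg w2) a (neg w1) b) = 0 := by
  have hs := sum_ex hf t (zq (dbl w1 a w2 b))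
  have hv := sum_ne_zero h
  rw [Fintype.sum_eq_add (0 : Tor d) (vt w1 + vt w2) (Ne.symm hv)] at hs
  · rw [Ng_zero, Ng_dbl hne h _ hv] at hs
    have e1 : dbl w1 a w2 b w1 = a := by simp [dbl]
    have e2 : dbl w1 a w2 b w2 = b := by
      simp [dbl, Ne.symm hne]
    rw [e1, e2] at hs
    exact hs
  · rintro v ⟨hv0, hv1⟩
    rcases key (q := dbl w1 a w2 b) hv0 with ⟨w, c, hw⟩ | ⟨x1, x2, hx, hN, hq2, hq1, hvx⟩
    · rw [hw, h1]
    · exfalso
      have m : ∀ y, dbl w1 a w2 b y ≠ 0 → y = w1 ∨ y = w2 := by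
        intro y hy
        by_contra hh
        push Not at hh
        exact hy (by unfold dbl; rw [if_neg hh.1, if_neg hh.2])
      have hx' : neg x2 ≠ neg x1 := fun h => hx (neg_inj h).symm
      apply hv1
      rw [hvx]
      rcases m _ hq2 with e2 | e2 <;> rcases m _ hq1 with e1 | e1
      · exact absurd (e2.trans e1.symm) hx'
      · rw [← e2, ← e1, vt_neg, vt_neg]; abel
      · rw [← e2, ← e1, vt_neg, vt_neg]; abel
      · exact absurd (e2.trans e1.symm) hx'

/-- opposite cells are seen only once -/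
theorem anti_opp (hf : TN f) (h1 : ∀ u a, ex f t (sg u a) = 0) {w1 w2 : Nbr d} (hne : w1 ≠ w2)
    (a b : Fin 3) (h : w2 = neg w1) :
    ex f t (dbl w1 a w2 b) = 0 := by
  have hs := sum_ex hf t (zq (dbl w1 a w2 b))
  rw [Fintype.sum_eq_single (0 : Tor d)] at hs
  · rwa [Ng_zero] at hs
  · intro v hv0
    rcases key (q := dbl w1 a w2 b) hv0 with ⟨w, c, hw⟩ | ⟨x1, x2, hx, hN, hq2, hq1, hvx⟩
    · rw [hw, h1]
    · exfalso
      have m : ∀ y, dbl w1 a w2 b y ≠ 0 → y = w1 ∨ y = w2 := by
        intro y hy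
        by_contra hh
        push Not at hh
        exact hy (by unfold dbl; rw [if_neg hh.1, if_neg hh.2])
      have hx' : neg x2 ≠ neg x1 := fun h => hx (neg_inj h).symm
      apply hv0
      rw [hvx]
      have hz : (vt w1 + vt w2 : Tor d) = 0 := by rw [h, vt_neg]; abel
      rcases m _ hq2 with e2 | e2 <;> rcases m _ hq1 with e1 | e1
      · exact absurd (e2.trans e1.symm) hx'
      · have : (-(vt x1 + vt x2) : Tor d) = vt w1 + vt w2 := by
          rw [← e2, ← e1, vt_neg, vt_neg]; abel
        rw [this, hz]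
      · have : (-(vt x1 + vt x2) : Tor d) = vt w1 + vt w2 := by
          rw [← e2, ← e1, vt_neg, vt_neg]; abel
        rw [this, hz]
      · exact absurd (e2.trans e1.symm) hx'

theorem pos_pair (hf : TN f) (h1 : ∀ u a, ex f t (sg u a) = 0) {w1 w2 : Nbr d} (hne : w1 ≠ w2)
    (a b : Fin 3) (t1 : t ≠ w1) (t2 : t ≠ w2) (t3 : t ≠ neg w1) (t4 : t ≠ neg w2) :
    ex f t (dbl w1 a w2 b) = 0 := by
  by_cases h : w2 = neg w1
  · exact anti_opp hf h1 hne a b h
  · have h2 := anti hf h1 hne a b h
    have h3 : 0 ≤ ex f t (dbl w1 a w2 b) :=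
      ex_nonneg (by unfold dbl; rw [if_neg t1, if_neg t2])
    have h4 : 0 ≤ ex f t (dbl (neg w2) a (neg w1) b) :=
      ex_nonneg (by unfold dbl; rw [if_neg t4, if_neg t3])
    omega

/-- the end: if all pairs have excess zero, the rule is the shift by `t` -/
theorem finish (hf : TN f) (h1 : ∀ u a, ex f t (sg u a) = 0)
    (h2 : ∀ w1 w2, w1 ≠ w2 → ∀ a b, ex f t (dbl w1 a w2 b) = 0) (q : Nbr d → Fin 3) :
    f q = q t := by
  have hs := sum_ex hf t (zq q)
  rw [Fintype.sum_eq_single (0 : Tor d)] at hs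
  · rw [Ng_zero] at hs
    unfold ex at hs
    have : (f q : ℕ) = q t := by omega
    exact Fin.ext this
  · intro v hv0
    rcases key (q := q) hv0 with ⟨w, c, hw⟩ | ⟨x1, x2, hx, hN, -, -, -⟩
    · rw [hw, h1]
    · rw [hN, h2 _ _ hx]

end

/-- the neighbourhood state which depends only on the direction `i` -/
def ext (i : Fin d) (s : Bool) (l c r : Fin 3) : Nbr d → Fin 3
  | none => c
  | some (j, u) => if j = i then (if u = s then r else l) else c

theorem ext_t (i : Fin d) (s : Bool) (l c r : Fin 3) : ext i s l c r (some (i, s)) = r := by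
  simp [ext]

section caseA

variable {f : (Nbr d → Fin 3) → Fin 3} {i : Fin d} {s : Bool}

theorem caseA (hf : TN f) (h1 : ∀ u a, ex f (some (i, s)) (sg u a) = 0)
    (hA : ∀ l c r, f (ext i s l c r) = r) (q : Nbr d → Fin 3) : f q = q (some (i, s)) := by
  obtain ⟨t, ht⟩ : ∃ t : Nbr d, t = some (i, s) := ⟨_, rfl⟩
  rw [← ht] at h1 ⊢
  have hnt : neg t = some (i, !s) := by rw [ht]; rfl
  have htn : t ≠ neg t := by
    rw [hnt, ht]
    cases s <;> simp
  have htnone : t ≠ none := by rw [ht]; simp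
  -- pairs that contain `t` but not `neg t`
  have hQ : ∀ w, w ≠ t → w ≠ neg t → ∀ a b, ex f t (dbl w b t a) = 0 := by
    intro w hw1 hw2 a b
    obtain ⟨q0, hq0⟩ : ∃ q0 : Nbr d → Fin 3, q0 = ext i s b a 0 := ⟨_, rfl⟩
    have hq0t : q0 t = 0 := by rw [hq0, ht, ext_t]
    have hall : ∀ v ∈ Finset.univ, ex f t (Ng v (zq q0)) ≤ 0 := by
      intro v _
      by_cases hv : v = 0
      · rw [hv, Ng_zero]
        unfold ex
        rw [hq0t, hq0, hA]
        simp
      · rcases key (q := q0) hv with ⟨w', c, hw⟩ | ⟨x1, x2, hx, hN, hq2, hq1, -⟩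
        · rw [hw, h1]
        · have n1 : t ≠ neg x1 := by
            rintro h
            rw [← h] at hq1
            exact hq1 hq0t
          have n2 : t ≠ neg x2 := by
            rintro h
            rw [← h] at hq2
            exact hq2 hq0t
          rw [hN]
          by_cases ho : x2 = neg x1
          · rw [anti_opp hf h1 hx _ _ ho]
          · have h3 := anti hf h1 hx (q0 (neg x2)) (q0 (neg x1)) ho
            have h4 : 0 ≤ ex f t (dbl (neg x2) (q0 (neg x2)) (neg x1) (q0 (neg x1))) :=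
              ex_nonneg (by unfold dbl; rw [if_neg n2, if_neg n1])
            omega
    have hs := sum_ex hf t (zq q0)
    rw [Finset.sum_eq_zero_iff_of_nonpos hall] at hs
    have hu1 : neg t ≠ neg w := fun h => hw1 (neg_inj h).symm
    have hu2 : neg w ≠ neg (neg t) := by
      intro h
      exact hw2 (neg_inj h)
    have h3 := hs (vt (neg t) + vt (neg w)) (Finset.mem_univ _)
    rw [Ng_dbl hu1 hu2 _ (sum_ne_zero hu2), neg_neg', neg_neg'] at h3
    have e1 : q0 (neg t) = b := by
      rw [hq0, hnt]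
      simp [ext]
    have e2 : q0 (neg w) = a := by
      rw [hq0]
      rcases w with _ | ⟨j, u⟩
      · rfl
      · simp only [neg, ext]
        rw [if_neg]
        rintro rfl
        rw [ht] at hw1
        rw [hnt] at hw2
        cases s <;> cases u <;> simp at hw1 hw2
    rw [e1, e2] at h3
    exact h3
  refine finish hf h1 ?_ q
  intro w1 w2 hne a b
  by_cases ho : w2 = neg w1
  · exact anti_opp hf h1 hne a b ho
  by_cases c1 : w1 = t
  · subst c1
    rw [dbl_comm hne]
    exact hQ w2 (Ne.symm hne) ho _ _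
  by_cases c2 : w2 = t
  · subst c2
    have : w1 ≠ neg w2 := by
      rintro rfl
      exact ho (neg_neg' _).symm
    exact hQ w1 hne this _ _
  by_cases c3 : w1 = neg t
  · subst c3
    have h3 := anti hf h1 hne a b ho
    rw [neg_neg'] at h3
    have n1 : neg w2 ≠ t := by
      rintro h
      apply hne
      rw [← h, neg_neg']
    have n2 : neg w2 ≠ neg t := fun h => c2 (neg_inj h)
    have h4 := hQ (neg w2) n1 n2 b a
    omega
  by_cases c4 : w2 = neg t
  · subst c4
    have h3 := anti hf h1 hne a b ho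
    rw [neg_neg'] at h3
    have n1 : neg w1 ≠ t := by
      rintro h
      apply hne
      rw [← h, neg_neg']
    have n2 : neg w1 ≠ neg t := fun h => c1 (neg_inj h)
    have h4 := hQ (neg w1) n1 n2 a b
    rw [dbl_comm n1] at h4
    omega
  refine pos_pair hf h1 hne a b (Ne.symm c1) (Ne.symm c2) ?_ ?_
  · rintro h
    apply c3
    rw [h, neg_neg']
  · rintro h
    apply c4
    rw [h, neg_neg']

end caseA

section caseB

variable {f : (Nbr d → Fin 3) → Fin 3}

theorem caseB (hf : TN f) (h1 : ∀ u a, ex f none (sg u a) = 0)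
    (hB : ∀ i s l c r, f (ext i s l c r) = c) (q : Nbr d → Fin 3) : f q = q none := by
  have hnn : neg (none : Nbr d) = none := rfl
  have hP : ∀ w1 w2, w1 ≠ w2 → none ≠ w1 → none ≠ w2 → ∀ a b,
      ex f none (dbl w1 a w2 b) = 0 := by
    intro w1 w2 hne n1 n2 a b
    refine pos_pair hf h1 hne a b n1 n2 ?_ ?_
    · intro h
      apply n1
      have := congrArg neg h
      rwa [neg_neg'] at this
    · intro h
      apply n2
      have := congrArg neg h
      rwa [neg_neg'] at this
  have hQ : ∀ (i : Fin d) (s : Bool) (c l : Fin 3),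
      ex f none (dbl (some (i, s)) c none l) = 0 := by
    intro i s c l
    obtain ⟨p, hp⟩ : ∃ p : Nbr d, p = some (i, !s) := ⟨_, rfl⟩
    have hnp : neg p = some (i, s) := by rw [hp]; simp [neg]
    have hpn : p ≠ none := by rw [hp]; simp
    obtain ⟨q1, hq1⟩ : ∃ q1 : Nbr d → Fin 3, q1 = ext i s l c 0 := ⟨_, rfl⟩
    obtain ⟨q2, hq2⟩ : ∃ q2 : Nbr d → Fin 3, q2 = ext i s 0 c 0 := ⟨_, rfl⟩
    have hq12 : ∀ u, u ≠ p → q1 u = q2 u := by
      intro u hu
      rw [hq1, hq2]
      rcases u with _ | ⟨j, b⟩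
      · rfl
      · simp only [ext]
        by_cases hj : j = i
        · subst hj
          by_cases hb : b = s
          · rw [if_pos rfl, if_pos rfl, if_pos hb, if_pos hb]
          · exfalso
            apply hu
            rw [hp]
            cases b <;> cases s <;> simp_all
        · rw [if_neg hj, if_neg hj]
    have hs1 := sum_ex hf none (zq q1)
    have hs2 := sum_ex hf none (zq q2)
    have hz : ∀ v, v ≠ vt p → ex f none (Ng v (zq q1)) = ex f none (Ng v (zq q2)) := by
      intro v hvp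
      by_cases hv : v = 0
      · rw [hv, Ng_zero, Ng_zero]
        unfold ex
        rw [hq1, hq2, hB, hB]
        rfl
      by_cases hsee : ∃ u, v + vt u = vt p
      · obtain ⟨u, hu⟩ := hsee
        have hun : u ≠ none := by
          rintro rfl
          apply hvp
          rwa [vt_none, add_zero] at hu
        -- the position `none` sees nothing
        have hno : ∀ q' : Nbr d → Fin 3, Ng v (zq q') none = 0 := by
          intro q'
          by_contra h3
          obtain ⟨e, he, -⟩ := zq_ne h3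
          have := (two_lemma hv (Ne.symm hun) he hu).2
          rw [hnn] at this
          exact hpn this
        have hzero : ∀ q' : Nbr d → Fin 3, ex f none (Ng v (zq q')) = 0 := by
          intro q'
          rcases key (q := q') hv with ⟨w', c', hw⟩ | ⟨x1, x2, hx, hN, hq2', hq1', -⟩
          · rw [hw, h1]
          · have h4 := hno q'
            rw [hN] at h4 ⊢
            refine hP x1 x2 hx ?_ ?_ _ _
            · rintro rfl
              unfold dbl at h4
              rw [if_pos rfl] at h4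
              exact hq2' h4
            · rintro rfl
              unfold dbl at h4
              rw [if_neg (Ne.symm hx), if_pos rfl] at h4
              exact hq1' h4
        rw [hzero, hzero]
      · push Not at hsee
        have : Ng v (zq q1) = Ng v (zq q2) := by
          funext u
          unfold Ng
          by_cases hr : ∃ e, vt e = v + vt u
          · obtain ⟨e, he⟩ := hr
            rw [← he, zq_vt, zq_vt]
            apply hq12
            rintro rfl
            exact hsee u he.symm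
          · unfold zq
            rw [dif_neg hr, dif_neg hr]
        rw [this]
    have hdiff : ∑ v, (ex f none (Ng v (zq q1)) - ex f none (Ng v (zq q2))) = 0 := by
      rw [Finset.sum_sub_distrib, hs1, hs2, sub_zero]
    rw [Fintype.sum_eq_single (vt p)] at hdiff
    · have hne : p ≠ none := hpn
      have ho : none ≠ neg p := by rw [hnp]; simp
      have hv0 := sum_ne_zero (w1 := p) (w2 := none) ho
      have g1 : vt p = vt p + vt (none : Nbr d) := by rw [vt_none, add_zero]
      rw [g1, Ng_dbl hne ho q1 hv0, Ng_dbl hne ho q2 hv0, hnn, hnp] at hdiff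
      have e1 : q1 p = l := by rw [hq1, hp]; simp [ext]
      have e2 : q1 none = c := by rw [hq1]; rfl
      have e3 : q2 p = 0 := by rw [hq2, hp]; simp [ext]
      have e4 : q2 none = c := by rw [hq2]; rfl
      rw [e1, e2, e3, e4, dbl_zero_left (by simp), h1, sub_zero] at hdiff
      rw [dbl_comm (by simp)]
      exact hdiff
    · intro v hv
      rw [hz v hv, sub_self]
  refine finish hf h1 ?_ q
  intro w1 w2 hne a b
  rcases w1 with _ | ⟨i, s⟩
  · rcases w2 with _ | ⟨j, u⟩
    · exact absurd rfl hne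
    · rw [dbl_comm hne]
      exact hQ j u b a
  · rcases w2 with _ | ⟨j, u⟩
    · exact hQ i s a b
    · exact hP _ _ hne (by simp) (by simp) a b

end caseB

end Pool.Agent.N661.CA
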