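import Mathlib

/-! # Injective number-conserving radius-one cellular automata on the line with three states -/

set_option autoImplicit false

namespace Pool.Agent.N661.CA

/-- the table of the values `g 0 a b` -/
def Pf (a b c d e f h i : ℕ) : ℕ → ℕ → ℕ
  | 0, 1 => a
  | 0, 2 => b
  | 1, 0 => c
  | 1, 1 => d
  | 1, 2 => e
  | 2, 0 => f
  | 2, 1 => h
  | 2, 2 => i
  | _, _ => 0

/-- upper part of the value -/
def num (P : ℕ → ℕ → ℕ) (l c r : ℕ) : ℕ := l + P 0 c + P c r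

/-- lower part of the value -/
def den (P : ℕ → ℕ → ℕ) (l c : ℕ) : ℕ := P 0 l + P l c

def okAll (P : ℕ → ℕ → ℕ) : Bool :=
  (List.range 3).all fun l => (List.range 3).all fun c => (List.range 3).all fun r =>
    Nat.ble (den P l c) (num P l c r) && Nat.ble (num P l c r) (den P l c + 2)

def vl (P : ℕ → ℕ → ℕ) (l c r : ℕ) : ℕ := num P l c r - den P l c

def im4 (P : ℕ → ℕ → ℕ) (w : ℕ × ℕ × ℕ × ℕ) : ℕ × ℕ × ℕ × ℕ :=
  (vl P w.2.2.2 w.1 w.2.1, vl P w.1 w.2.1 w.2.2.1, vl P w.2.1 w.2.2.1 w.2.2.2,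
    vl P w.2.2.1 w.2.2.2 w.1)

def eq4 (a b : ℕ × ℕ × ℕ × ℕ) : Bool :=
  Nat.beq a.1 b.1 && Nat.beq a.2.1 b.2.1 && Nat.beq a.2.2.1 b.2.2.1 && Nat.beq a.2.2.2 b.2.2.2

def prs : List ((ℕ × ℕ × ℕ × ℕ) × (ℕ × ℕ × ℕ × ℕ)) :=
  [((0, 2, 0, 2), (1, 1, 1, 1)), ((0, 2, 2, 2), (2, 2, 0, 2)), ((0, 0, 2, 2), (2, 2, 0, 0)),
   ((0, 0, 0, 2), (0, 2, 0, 0)), ((1, 1, 2, 2), (2, 2, 1, 1)), ((0, 0, 2, 2), (0, 1, 1, 2)),
   ((0, 0, 2, 2), (1, 0, 2, 1)), ((0, 1, 2, 2), (1, 0, 2, 2))]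

def coll (P : ℕ → ℕ → ℕ) : Bool := prs.any fun p => eq4 (im4 P p.1) (im4 P p.2)

def triv (P : ℕ → ℕ → ℕ) : Bool :=
  ((List.range 3).all fun l => (List.range 3).all fun c => (List.range 3).all fun r =>
    Nat.beq (vl P l c r) l) ||
  ((List.range 3).all fun l => (List.range 3).all fun c => (List.range 3).all fun r =>
    Nat.beq (vl P l c r) c) ||
  ((List.range 3).all fun l => (List.range 3).all fun c => (List.range 3).all fun r =>
    Nat.beq (vl P l c r) r)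

def chk : Bool :=
  (List.range 3).all fun a => (List.range 3).all fun b => (List.range 3).all fun c =>
  (List.range 3).all fun d => (List.range 3).all fun e => (List.range 3).all fun f =>
  (List.range 3).all fun h => (List.range 3).all fun i =>
    !(okAll (Pf a b c d e f h i)) || coll (Pf a b c d e f h i) || triv (Pf a b c d e f h i)

theorem chk_true : chk = true := by decide +kernel

end Pool.Agent.N661.CA
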