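import Pool.Agent.N661.CA.OneD

set_option autoImplicit false

namespace Pool.Agent.N661.CA

theorem of_range {p : ℕ → Bool} (h : (List.range 3).all p = true) (a : Fin 3) : p a = true := by
  rw [List.all_eq_true] at h
  exact h _ (List.mem_range.2 a.2)

theorem chk_spec (a b c d e f h i : Fin 3) :
    okAll (Pf a b c d e f h i) = true →
      coll (Pf a b c d e f h i) = true ∨ triv (Pf a b c d e f h i) = true := by
  have h0 := chk_true
  unfold chk at h0
  have h1 := of_range (of_range (of_range (of_range (of_range (of_range (of_range (of_range h0 a)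
    b) c) d) e) f) h) i
  intro hok
  rw [hok] at h1
  simpa using h1

theorem oneD (g : Fin 3 → Fin 3 → Fin 3 → Fin 3)
    (hf : ∀ l c r : Fin 3, (g l c r : ℕ) + (g 0 0 l : ℕ) + (g 0 l c : ℕ) =
      (l : ℕ) + (g 0 0 c : ℕ) + (g 0 c r : ℕ))
    (hi : ∀ w w' : Fin 3 × Fin 3 × Fin 3 × Fin 3,
      g w.2.2.2 w.1 w.2.1 = g w'.2.2.2 w'.1 w'.2.1 →
      g w.1 w.2.1 w.2.2.1 = g w'.1 w'.2.1 w'.2.2.1 →
      g w.2.1 w.2.2.1 w.2.2.2 = g w'.2.1 w'.2.2.1 w'.2.2.2 →
      g w.2.2.1 w.2.2.2 w.1 = g w'.2.2.1 w'.2.2.2 w'.1 → w = w') :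
    (∀ l c r, g l c r = l) ∨ (∀ l c r, g l c r = c) ∨ (∀ l c r, g l c r = r) := by
  have h000 : (g 0 0 0 : ℕ) = 0 := by
    have := hf 0 0 0
    simp at this
    simpa using this
  obtain ⟨P, hP⟩ : ∃ P : ℕ → ℕ → ℕ, P = Pf (g 0 0 1) (g 0 0 2) (g 0 1 0) (g 0 1 1) (g 0 1 2)
    (g 0 2 0) (g 0 2 1) (g 0 2 2) := ⟨_, rfl⟩
  have hPe : ∀ c r : Fin 3, P c r = (g 0 c r : ℕ) := by
    intro c r
    rw [hP]
    fin_cases c <;> fin_cases r <;> first | rfl | exact h000.symm
  have hval : ∀ l c r : Fin 3, num P l c r = (g l c r : ℕ) + den P l c := by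
    intro l c r
    have h1 := hf l c r
    have h2 := hPe 0 c
    have h3 := hPe 0 l
    have h4 := hPe c r
    have h5 := hPe l c
    simp only [Fin.val_zero] at h2 h3
    unfold num den
    omega
  have hok : okAll P = true := by
    unfold okAll
    simp only [List.all_eq_true, List.mem_range, Bool.and_eq_true]
    intro l hl c hc r hr
    have h := hval ⟨l, hl⟩ ⟨c, hc⟩ ⟨r, hr⟩
    have h2 := (g ⟨l, hl⟩ ⟨c, hc⟩ ⟨r, hr⟩).2
    simp only at h
    constructor
    · exact Nat.ble_eq_true_of_le (by omega)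
    · exact Nat.ble_eq_true_of_le (by omega)
  have hvl : ∀ l c r : Fin 3, vl P l c r = (g l c r : ℕ) := by
    intro l c r
    unfold vl
    rw [hval]
    omega
  have key := chk_spec (g 0 0 1) (g 0 0 2) (g 0 1 0) (g 0 1 1) (g 0 1 2)
    (g 0 2 0) (g 0 2 1) (g 0 2 2)
  rw [← hP] at key
  rcases key hok with hc | ht
  · exfalso
    unfold coll at hc
    rw [List.any_eq_true] at hc
    obtain ⟨p, hp, he⟩ := hc
    have hno : ∀ a b c d a' b' c' d' : Fin 3, (a, b, c, d) ≠ (a', b', c', d') →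
        eq4 (im4 P (a, b, c, d)) (im4 P (a', b', c', d')) = true → False := by
      intro a b c d a' b' c' d' hne heq
      unfold eq4 im4 at heq
      simp only [Bool.and_eq_true, Nat.beq_eq] at heq
      obtain ⟨⟨⟨h1, h2⟩, h3⟩, h4⟩ := heq
      rw [hvl, hvl] at h1 h2 h3 h4
      exact hne (hi (a, b, c, d) (a', b', c', d') (Fin.ext h1) (Fin.ext h2) (Fin.ext h3)
        (Fin.ext h4))
    unfold prs at hp
    simp only [List.mem_cons, List.not_mem_nil, or_false] at hp
    rcases hp with rfl | rfl | rfl | rfl | rfl | rfl | rfl | rfl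
    · exact hno 0 2 0 2 1 1 1 1 (by decide) he
    · exact hno 0 2 2 2 2 2 0 2 (by decide) he
    · exact hno 0 0 2 2 2 2 0 0 (by decide) he
    · exact hno 0 0 0 2 0 2 0 0 (by decide) he
    · exact hno 1 1 2 2 2 2 1 1 (by decide) he
    · exact hno 0 0 2 2 0 1 1 2 (by decide) he
    · exact hno 0 0 2 2 1 0 2 1 (by decide) he
    · exact hno 0 1 2 2 1 0 2 2 (by decide) he
  · unfold triv at ht
    simp only [Bool.or_eq_true, List.all_eq_true, List.mem_range, Nat.beq_eq] at ht
    rcases ht with (h | h) | h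
    · left
      intro l c r
      have := h l l.2 c c.2 r r.2
      rw [hvl] at this
      exact Fin.ext this
    · right; left
      intro l c r
      have := h l l.2 c c.2 r r.2
      rw [hvl] at this
      exact Fin.ext this
    · right; right
      intro l c r
      have := h l l.2 c c.2 r r.2
      rw [hvl] at this
      exact Fin.ext this

end Pool.Agent.N661.CA
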